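import Pool.Agent.Helper99.SC.Topo

/-!
# SC10: sorting the edges of a page by their span
-/

set_option autoImplicit false

namespace Pool.Agent.Helper99.SC.BarsMod

open Pool.Agent.Helper99.SC

/-- the span of an edge -/
def span (p : ℕ × ℕ) : ℕ := max p.1 p.2 - min p.1 p.2

/-- the relation used for sorting -/
def rel (p q : ℕ × ℕ) : Prop := span p ≤ span q

instance : DecidableRel rel := fun p q => inferInstanceAs (Decidable (span p ≤ span q))

instance : Std.Total rel := ⟨fun p q => le_total (span p) (span q)⟩

instance : IsTrans (ℕ × ℕ) rel := ⟨fun _ _ _ h h' => le_trans h h'⟩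

theorem sc_bars : M_bars := by
  classical
  intro n A hA
  let S : Finset (ℕ × ℕ) := (Finset.range n ×ˢ Finset.range n).filter fun p => A p.1 p.2
  let l : List (ℕ × ℕ) := S.toList.insertionSort rel
  have hperm : l.Perm S.toList := List.perm_insertionSort rel S.toList
  have hmem : ∀ p, p ∈ l ↔ A p.1 p.2 := by
    intro p
    rw [hperm.mem_iff, Finset.mem_toList, Finset.mem_filter, Finset.mem_product,
      Finset.mem_range, Finset.mem_range]
    exact ⟨fun h => h.2, fun h => ⟨hA _ _ h, h⟩⟩
  have hnd : l.Nodup := hperm.nodup_iff.mpr (Finset.nodup_toList S)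
  have hsort : l.Pairwise rel := List.pairwise_insertionSort rel S.toList
  have hget : ∀ (y : ℕ) (h : y < l.length), l.getD y (0, 0) = l[y] := by
    intro y h
    exact List.getD_eq_getElem l (0, 0) h
  refine ⟨l.length, fun y => (l.getD y (0, 0)).1, fun y => (l.getD y (0, 0)).2, ?_, ?_, ?_, ?_⟩
  · intro s t
    constructor
    · intro h
      obtain ⟨y, hy, hy'⟩ := List.mem_iff_getElem.mp ((hmem (s, t)).mpr h)
      refine ⟨y, hy, ?_, ?_⟩
      · simp only [hget y hy, hy']
      · simp only [hget y hy, hy']
    · rintro ⟨y, hy, h1, h2⟩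
      have := (hmem l[y]).mp (List.getElem_mem hy)
      simp only [hget y hy] at h1 h2
      rw [h1, h2] at this
      exact this
  · intro y hy
    have := (hmem l[y]).mp (List.getElem_mem hy)
    simp only [hget y hy]
    exact hA _ _ this
  · intro y hy y' hy' h1 h2
    simp only [hget y hy, hget y' hy'] at h1 h2
    exact (hnd.getElem_inj_iff).mp (Prod.ext h1 h2)
  · intro y y' hyy hy'
    have hy : y < l.length := by omega
    simp only [hget y hy, hget y' hy']
    rcases Nat.lt_or_ge y y' with h | h
    · exact List.pairwise_iff_getElem.mp hsort y y' hy hy' h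
    · have : y = y' := by omega
      subst this
      exact le_rfl

end Pool.Agent.Helper99.SC.BarsMod

theorem Pool.Agent.Helper99.SC.sc_bars : Pool.Agent.Helper99.SC.M_bars :=
  Pool.Agent.Helper99.SC.BarsMod.sc_bars
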