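import Pool.Agent.Helper99.SC.Topo

/-!
# SC12: completeness (assembly)
-/

set_option autoImplicit false

namespace Pool.Agent.Helper99.SC

namespace CompleteMod

/-- the page `A` in the slots `4 a + 2` -/
def slot (A : ℕ → ℕ → Prop) (x y : ℕ) : Prop := ∃ s t, A s t ∧ x = 4 * s + 2 ∧ y = 4 * t + 2

/-- the two pages of the network -/
def pages (n : ℕ) (A B : ℕ → ℕ → Prop) : Bool → ℕ → ℕ → Prop
  | true => fun x y => slot A x y ∨ (x = 0 ∧ y = n - 1)
  | false => fun x y => slot B x y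

theorem cross_slot {a b c d : ℕ} (h : Cross (4 * a + 2) (4 * b + 2) (4 * c + 2) (4 * d + 2)) :
    Cross a b c d := by
  unfold Cross at *
  omega

theorem slot_swap {A : ℕ → ℕ → Prop} (hA : SwapClosed A) : SwapClosed (slot A) := by
  rintro s t s' t' ⟨a, b, hab, rfl, rfl⟩ ⟨c, d, hcd, rfl, rfl⟩ hc
  exact ⟨a, d, hA a b c d hab hcd (cross_slot hc), rfl, rfl⟩

theorem pages_swap {Q : ℕ} {A B : ℕ → ℕ → Prop} (hA : SwapClosed A)
    (hB : SwapClosed B) (hAlt : ∀ a b, A a b → a < Q ∧ b < Q) :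
    ∀ b, SwapClosed (pages (4 * Q) A B b) := by
  intro b
  cases b with
  | false => exact slot_swap hB
  | true =>
    rintro s t s' t' (h | ⟨h1, h2⟩) (h' | ⟨h1', h2'⟩) hc
    · exact Or.inl (slot_swap hA s t s' t' h h' hc)
    · exfalso
      obtain ⟨a, b, hab, rfl, rfl⟩ := h
      have := hAlt a b hab
      subst h1' h2'
      unfold Cross at hc
      omega
    · exfalso
      obtain ⟨a, b, hab, rfl, rfl⟩ := h'
      have := hAlt a b hab
      subst h1 h2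
      unfold Cross at hc
      omega
    · exfalso
      subst h1 h2 h1' h2'
      unfold Cross at hc
      omega

theorem pages_bip {Q : ℕ} (hQ : 0 < Q) {h A B : ℕ → ℕ → Prop}
    (hh : ∀ s t, h s t ↔ A s t ∨ B s t) (hbip : Bip Q h) :
    ∀ b x y z, pages (4 * Q) A B b x y → ¬ pages (4 * Q) A B b y z := by
  intro b x y z
  cases b with
  | false =>
    rintro ⟨a, b, hab, rfl, rfl⟩ ⟨c, d, hcd, h1, rfl⟩
    have : c = b := by omega
    subst this
    exact hbip.2 a c d ((hh _ _).mpr (Or.inr hab)) ((hh _ _).mpr (Or.inr hcd))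
  | true =>
    rintro (⟨a, b, hab, rfl, rfl⟩ | ⟨rfl, rfl⟩) (⟨c, d, hcd, h1, rfl⟩ | ⟨h1, rfl⟩)
    · have : c = b := by omega
      subst this
      exact hbip.2 a c d ((hh _ _).mpr (Or.inl hab)) ((hh _ _).mpr (Or.inl hcd))
    · omega
    · omega
    · omega

theorem pages_lt {Q : ℕ} (hQ : 0 < Q) {A B : ℕ → ℕ → Prop}
    (hA : ∀ a b, A a b → a < Q ∧ b < Q) (hB : ∀ a b, B a b → a < Q ∧ b < Q) :
    ∀ b x y, pages (4 * Q) A B b x y → x < 4 * Q ∧ y < 4 * Q := by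
  intro b x y
  cases b with
  | false =>
    rintro ⟨a, b, hab, rfl, rfl⟩
    have := hB a b hab
    omega
  | true =>
    rintro (⟨a, b, hab, rfl, rfl⟩ | ⟨rfl, rfl⟩)
    · have := hA a b hab
      omega
    · omega

theorem mod_iff {Q i j : ℕ} (hi : i < 4 * Q) (hj : j < 4 * Q) :
    (i + 1) % (4 * Q) = j ↔ i + 1 = j ∨ (i = 4 * Q - 1 ∧ j = 0) := by
  rcases Nat.lt_or_ge (i + 1) (4 * Q) with h | h
  · rw [Nat.mod_eq_of_lt h]; omega
  · have : i + 1 = 4 * Q := by omega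
    rw [this, Nat.mod_self]; omega

end CompleteMod

open CompleteMod

theorem sc_complete (hn : M_net) (hb : M_bars) (hr : M_reach) : M_complete := by
  intro Q h hQ hbip ⟨A, B, hh, hAs, hBs⟩
  have hAlt : ∀ a b, A a b → a < Q ∧ b < Q := fun a b hab =>
    hbip.1 a b ((hh a b).mpr (Or.inl hab))
  have hBlt : ∀ a b, B a b → a < Q ∧ b < Q := fun a b hab =>
    hbip.1 a b ((hh a b).mpr (Or.inr hab))
  have hbars : ∀ b, ∃ M src tgt, Bars (pages (4 * Q) A B b) (4 * Q) M src tgt := fun b =>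
    hb (4 * Q) (pages (4 * Q) A B b) (pages_lt hQ hAlt hBlt b)
  choose M src tgt hbs using hbars
  obtain ⟨hbal, hreach⟩ := hr (4 * Q) (pages (4 * Q) A B) M src tgt hbs
    (pages_swap hAs hBs hAlt) (pages_bip hQ hh hbip)
  obtain ⟨T, hT⟩ : ∃ T : Drawing (Fin (4 * Q)), ∀ u v : Fin (4 * Q),
      T.Joins u v ↔ (u.val + 1 = v.val ∨ v.val + 1 = u.val ∨
        (barNet (4 * Q) M src tgt fun b => (hbs b).lt).Reach u.val v.val ∨
        (barNet (4 * Q) M src tgt fun b => (hbs b).lt).Reach v.val u.val) :=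
    hn (barNet (4 * Q) M src tgt fun b => (hbs b).lt) hbal
  refine ⟨T, fun u v huv => ?_⟩
  rw [hT u v, hreach, hreach]
  have hu := u.isLt
  have hv := v.isLt
  have hne : u.val ≠ v.val := fun e => huv (Fin.ext e)
  unfold slotGraph
  rw [SimpleGraph.fromRel_adj]
  simp only [mod_iff hu hv, mod_iff hv hu]
  constructor
  · rintro ⟨-, ((h1 | ⟨h1, h2⟩) | ⟨a, b, hab, h1, h2⟩) |
      ((h1 | ⟨h1, h2⟩) | ⟨a, b, hab, h1, h2⟩)⟩
    · exact Or.inl h1
    · exact Or.inr (Or.inr (Or.inr ⟨true, Or.inr ⟨h2, h1⟩⟩))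
    · rcases (hh a b).mp hab with hA | hB
      · exact Or.inr (Or.inr (Or.inl ⟨true, Or.inl ⟨a, b, hA, h1, h2⟩⟩))
      · exact Or.inr (Or.inr (Or.inl ⟨false, ⟨a, b, hB, h1, h2⟩⟩))
    · exact Or.inr (Or.inl h1)
    · exact Or.inr (Or.inr (Or.inl ⟨true, Or.inr ⟨h2, h1⟩⟩))
    · rcases (hh a b).mp hab with hA | hB
      · exact Or.inr (Or.inr (Or.inr ⟨true, Or.inl ⟨a, b, hA, h1, h2⟩⟩))
      · exact Or.inr (Or.inr (Or.inr ⟨false, ⟨a, b, hB, h1, h2⟩⟩))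
  · rintro (h1 | h1 | ⟨b, hb'⟩ | ⟨b, hb'⟩)
    · exact ⟨huv, Or.inl (Or.inl (Or.inl h1))⟩
    · exact ⟨huv, Or.inr (Or.inl (Or.inl h1))⟩
    · cases b with
      | false =>
        obtain ⟨a, b, hab, h1, h2⟩ := hb'
        exact ⟨huv, Or.inl (Or.inr ⟨a, b, (hh a b).mpr (Or.inr hab), h1, h2⟩)⟩
      | true =>
        rcases hb' with ⟨a, b, hab, h1, h2⟩ | ⟨h1, h2⟩
        · exact ⟨huv, Or.inl (Or.inr ⟨a, b, (hh a b).mpr (Or.inl hab), h1, h2⟩)⟩
        · exact ⟨huv, Or.inr (Or.inl (Or.inr ⟨h2, h1⟩))⟩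
    · cases b with
      | false =>
        obtain ⟨a, b, hab, h1, h2⟩ := hb'
        exact ⟨huv, Or.inr (Or.inr ⟨a, b, (hh a b).mpr (Or.inr hab), h1, h2⟩)⟩
      | true =>
        rcases hb' with ⟨a, b, hab, h1, h2⟩ | ⟨h1, h2⟩
        · exact ⟨huv, Or.inr (Or.inr ⟨a, b, (hh a b).mpr (Or.inl hab), h1, h2⟩)⟩
        · exact ⟨huv, Or.inl (Or.inl (Or.inr ⟨h2, h1⟩))⟩

end Pool.Agent.Helper99.SC
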